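import Pool.Agent.TH198.AT.Conv
import Pool.Agent.TH330.AT.HEATE

set_option autoImplicit false

open MeasureTheory ProbabilityTheory Set Filter Topology

namespace Pool.TH883.AT

open Pool.TH198.AT

noncomputable def g0 (m x : ℝ) : ℝ := Real.cosh x ^ m
noncomputable def g1 (m x : ℝ) : ℝ := m * Real.tanh x * Real.cosh x ^ m
noncomputable def g2 (m x : ℝ) : ℝ :=
  (m ^ 2 * Real.tanh x ^ 2 + m * sech x ^ 2) * Real.cosh x ^ m

theorem hd_tanh (x : ℝ) : HasDerivAt Real.tanh (sech x ^ 2) x := by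
  have hc : Real.cosh x ≠ 0 := (Real.cosh_pos x).ne'
  have h1 := (Real.hasDerivAt_sinh x).div (Real.hasDerivAt_cosh x) hc
  have h2 : (fun y => Real.sinh y / Real.cosh y) = Real.tanh := by
    funext y; rw [Real.tanh_eq_sinh_div_cosh]
  have h3 : (Real.sinh / Real.cosh : ℝ → ℝ) = Real.tanh := by
    funext y; rw [Pi.div_apply, Real.tanh_eq_sinh_div_cosh]
  have h4 : (Real.cosh x * Real.cosh x - Real.sinh x * Real.sinh x) / Real.cosh x ^ 2 =
      sech x ^ 2 := by
    have h5 := Real.cosh_sq x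
    rw [sech, inv_pow, ← one_div]
    congr 1
    nlinarith
  rw [h4] at h1
  first
  | exact h1
  | (rw [h3] at h1; exact h1)

theorem tanh_abs (x : ℝ) : |Real.tanh x| ≤ 1 := by
  rw [abs_le]
  exact ⟨(Real.neg_one_lt_tanh x).le, (Real.tanh_lt_one x).le⟩

theorem tanh_sech (x : ℝ) : Real.tanh x ^ 2 + sech x ^ 2 = 1 := by
  have h5 := Real.cosh_sq x
  have hc : Real.cosh x ≠ 0 := (Real.cosh_pos x).ne'
  rw [sech, Real.tanh_eq_sinh_div_cosh]
  field_simp
  linarith

theorem hd_g0 (m x : ℝ) : HasDerivAt (g0 m) (g1 m x) x := by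
  have hc : 0 < Real.cosh x := Real.cosh_pos x
  have h1 := (Real.hasDerivAt_cosh x).rpow_const (p := m) (Or.inl hc.ne')
  have h2 : Real.sinh x * m * Real.cosh x ^ (m - 1) = g1 m x := by
    rw [g1, Real.rpow_sub_one hc.ne', Real.tanh_eq_sinh_div_cosh]
    field_simp
  rw [h2] at h1
  exact h1

theorem hd_g1 (m x : ℝ) : HasDerivAt (g1 m) (g2 m x) x := by
  have h1 := ((hd_tanh x).const_mul m).mul (hd_g0 m x)
  have h2 : m * sech x ^ 2 * g0 m x + m * Real.tanh x * g1 m x = g2 m x := by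
    rw [g2, g1, g0]
    ring
  rw [h2] at h1
  exact h1

theorem g0_cont (m : ℝ) : Continuous (g0 m) :=
  continuous_iff_continuousAt.2 fun x => (hd_g0 m x).continuousAt

theorem tanh_cont : Continuous Real.tanh :=
  continuous_iff_continuousAt.2 fun x => (hd_tanh x).continuousAt

theorem sech_cont : Continuous sech := by
  unfold sech
  exact Real.continuous_cosh.inv₀ fun x => (Real.cosh_pos x).ne'

theorem g1_cont (m : ℝ) : Continuous (g1 m) :=
  continuous_iff_continuousAt.2 fun x => (hd_g1 m x).continuousAt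

theorem g2_cont (m : ℝ) : Continuous (g2 m) := by
  have h1 : g2 m = fun x => (m ^ 2 * Real.tanh x ^ 2 + m * sech x ^ 2) * g0 m x := by
    funext x; rw [g2, g0]
  rw [h1]
  exact ((continuous_const.mul (tanh_cont.pow 2)).add
    (continuous_const.mul (sech_cont.pow 2))).mul (g0_cont m)

theorem g0_pos (m x : ℝ) : 0 < g0 m x := Real.rpow_pos_of_pos (Real.cosh_pos x) m

theorem g0_one {m : ℝ} (hm : 0 < m) (x : ℝ) : 1 ≤ g0 m x :=
  Real.one_le_rpow (Real.one_le_cosh x) hm.le

theorem g0_le {m : ℝ} (hm1 : m ≤ 1) (x : ℝ) : g0 m x ≤ Real.exp |x| := by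
  have h1 : g0 m x ≤ Real.cosh x := by
    have := Real.rpow_le_rpow_of_exponent_le (Real.one_le_cosh x) hm1
    rwa [Real.rpow_one] at this
  refine h1.trans ?_
  rw [Real.cosh_eq]
  have h2 : Real.exp x ≤ Real.exp |x| := Real.exp_le_exp.2 (le_abs_self x)
  have h3 : Real.exp (-x) ≤ Real.exp |x| := Real.exp_le_exp.2 (neg_le_abs x)
  linarith

theorem g1_abs {m : ℝ} (hm : 0 < m) (x : ℝ) : |g1 m x| ≤ m * g0 m x := by
  have h0 := g0_pos m x
  rw [g1, abs_mul, abs_mul, abs_of_pos hm, abs_of_pos (show 0 < Real.cosh x ^ m from h0)]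
  have h1 := tanh_abs x
  show m * |Real.tanh x| * g0 m x ≤ m * g0 m x
  nlinarith [mul_nonneg (mul_nonneg hm.le h0.le) (sub_nonneg.2 h1)]

theorem g2_abs {m : ℝ} (hm : 0 < m) (hm1 : m ≤ 1) (x : ℝ) : |g2 m x| ≤ m * g0 m x := by
  have h0 := g0_pos m x
  have h1 := tanh_sech x
  have h2 : 0 ≤ m ^ 2 * Real.tanh x ^ 2 + m * sech x ^ 2 := by positivity
  have h3 : m ^ 2 * Real.tanh x ^ 2 + m * sech x ^ 2 ≤ m := by
    have h4 : sech x ^ 2 = 1 - Real.tanh x ^ 2 := by linarith
    rw [h4]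
    nlinarith [mul_nonneg (mul_nonneg hm.le (sq_nonneg (Real.tanh x))) (sub_nonneg.2 hm1)]
  rw [g2, abs_mul, abs_of_nonneg h2, abs_of_pos (show 0 < Real.cosh x ^ m from h0)]
  exact mul_le_mul_of_nonneg_right h3 h0.le

theorem expC2 {m : ℝ} (hm : 0 < m) (hm1 : m ≤ 1) : ExpC2 (g0 m) (g1 m) (g2 m) := by
  refine ⟨hd_g0 m, hd_g1 m, g2_cont m, 1, 1, fun x => ?_⟩
  have h0 := g0_pos m x
  have h1 := g0_le hm1 x
  have h2 : m * g0 m x ≤ g0 m x := by nlinarith
  rw [one_mul, one_mul]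
  exact ⟨by rw [abs_of_pos h0]; exact h1, (g1_abs hm x).trans (h2.trans h1),
    (g2_abs hm hm1 x).trans (h2.trans h1)⟩

theorem int_of {m : ℝ} (hm1 : m ≤ 1) {f : ℝ → ℝ} (hc : Continuous f)
    (hf : ∀ x, |f x| ≤ g0 m x) (x s : ℝ) :
    Integrable (fun y => f (x + s * y)) (gaussianReal 0 1) := by
  refine Pool.TH330.AT.grow_int (C := 1) (K := 1) zero_le_one zero_le_one hc (fun x => ?_) x s
  rw [one_mul, one_mul]
  exact (hf x).trans (g0_le hm1 x)

theorem E1_const (c : ℝ) : E1 (fun _ => c) = c := by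
  unfold E1
  rw [integral_const]
  simp

theorem t_CH (h : St_HEATE) : St_CH := by
  intro m hm hm1
  obtain ⟨d0, d1, dv, c0, c1, c2⟩ := h _ _ _ (expC2 hm hm1)
  obtain ⟨G0, hG0⟩ : ∃ G0 : ℝ → ℝ → ℝ, G0 = fun w x => E1 (fun y => g0 m (x + √w * y)) := ⟨_, rfl⟩
  obtain ⟨G1, hG1⟩ : ∃ G1 : ℝ → ℝ → ℝ, G1 = fun w x => E1 (fun y => g1 m (x + √w * y)) := ⟨_, rfl⟩
  obtain ⟨G2, hG2⟩ : ∃ G2 : ℝ → ℝ → ℝ, G2 = fun w x => E1 (fun y => g2 m (x + √w * y)) := ⟨_, rfl⟩
  have e0 : ∀ w x, G0 w x = E1 (fun y => g0 m (x + √w * y)) := fun w x => by rw [hG0]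
  have e1 : ∀ w x, G1 w x = E1 (fun y => g1 m (x + √w * y)) := fun w x => by rw [hG1]
  have e2 : ∀ w x, G2 w x = E1 (fun y => g2 m (x + √w * y)) := fun w x => by rw [hG2]
  have hgle : ∀ x, |g0 m x| ≤ g0 m x := fun x => by rw [abs_of_pos (g0_pos m x)]
  have i0 : ∀ w x : ℝ, Integrable (fun y => g0 m (x + √w * y)) (gaussianReal 0 1) := fun w x =>
    int_of hm1 (g0_cont m) hgle x √w
  have hmg : ∀ x, m * g0 m x ≤ g0 m x := fun x => by nlinarith [g0_pos m x]
  have i1 : ∀ w x : ℝ, Integrable (fun y => g1 m (x + √w * y)) (gaussianReal 0 1) := fun w x =>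
    int_of hm1 (g1_cont m) (fun x => (g1_abs hm x).trans (hmg x)) x √w
  have i2 : ∀ w x : ℝ, Integrable (fun y => g2 m (x + √w * y)) (gaussianReal 0 1) := fun w x =>
    int_of hm1 (g2_cont m) (fun x => (g2_abs hm hm1 x).trans (hmg x)) x √w
  have p0 : ∀ w x, 1 ≤ G0 w x := by
    intro w x
    have h1 : E1 (fun _ => (1 : ℝ)) ≤ G0 w x := by
      rw [e0]
      exact integral_mono (integrable_const 1) (i0 w x) fun y => g0_one hm _
    rwa [E1_const] at h1
  have q0 : ∀ w x, G0 w x ≠ 0 := fun w x => by have := p0 w x; intro h; linarith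
  have b1 : ∀ w x, |G1 w x| ≤ m * G0 w x := by
    intro w x
    rw [e1, e0]
    refine abs_integral_le_integral_abs.trans ?_
    have h1 : m * E1 (fun y => g0 m (x + √w * y)) = ∫ y, m * g0 m (x + √w * y) ∂gaussianReal 0 1 :=
      (integral_const_mul _ _).symm
    rw [h1]
    exact integral_mono (i1 w x).abs ((i0 w x).const_mul m) fun y => g1_abs hm _
  have b2 : ∀ w x, |G2 w x| ≤ m * G0 w x := by
    intro w x
    rw [e2, e0]
    refine abs_integral_le_integral_abs.trans ?_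
    have h1 : m * E1 (fun y => g0 m (x + √w * y)) = ∫ y, m * g0 m (x + √w * y) ∂gaussianReal 0 1 :=
      (integral_const_mul _ _).symm
    rw [h1]
    exact integral_mono (i2 w x).abs ((i0 w x).const_mul m) fun y => g2_abs hm hm1 _
  have hUH : ∀ w x, UH m w x = (1 / m) * Real.log (G0 w x) := by
    intro w x
    rw [UH, e0]
    rfl
  have hx0 : ∀ w x, HasDerivAt (G0 w) (G1 w x) x := by
    intro w x
    have h1 := d0 x √w
    rw [hG0, hG1]
    exact h1
  have hx1 : ∀ w x, HasDerivAt (G1 w) (G2 w x) x := by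
    intro w x
    have h1 := d1 x √w
    rw [hG1, hG2]
    exact h1
  have hw0 : ∀ w x, 0 < w → HasDerivAt (fun w => G0 w x) (G2 w x / 2) w := by
    intro w x hw
    have h1 := dv x w hw
    rw [hG0, hG2]
    exact h1
  have C0 : Continuous fun p : ℝ × ℝ => G0 p.1 p.2 := by
    refine (c0.comp continuous_swap).congr fun p => ?_
    rw [e0]
    rfl
  have C1 : Continuous fun p : ℝ × ℝ => G1 p.1 p.2 := by
    refine (c1.comp continuous_swap).congr fun p => ?_
    rw [e1]
    rfl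
  have C2 : Continuous fun p : ℝ × ℝ => G2 p.1 p.2 := by
    refine (c2.comp continuous_swap).congr fun p => ?_
    rw [e2]
    rfl
  refine ⟨fun w x => (1 / m) * (G1 w x / G0 w x),
    fun w x => (1 / m) * ((G2 w x * G0 w x - G1 w x * G1 w x) / G0 w x ^ 2), ?_, ?_, ?_, ?_, ?_, ?_, ?_⟩
  · intro w x _
    constructor
    · have h1 := ((hx0 w x).log (q0 w x)).const_mul (1 / m)
      have h2 : UH m w = fun x => (1 / m) * Real.log (G0 w x) := funext (hUH w)
      rw [h2]
      exact h1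
    · exact ((hx1 w x).div (hx0 w x) (q0 w x)).const_mul (1 / m)
  · intro w x hw
    have h1 := ((hw0 w x hw).log (q0 w x)).const_mul (1 / m)
    have h2 : (fun w => UH m w x) = fun w => (1 / m) * Real.log (G0 w x) :=
      funext fun w => hUH w x
    rw [h2]
    have h3 : (1 / m) * (G2 w x / 2 / G0 w x) =
        ((1 / m) * ((G2 w x * G0 w x - G1 w x * G1 w x) / G0 w x ^ 2) +
          m * ((1 / m) * (G1 w x / G0 w x)) ^ 2) / 2 := by
      have := q0 w x
      have hm' := hm.ne'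
      field_simp
      ring
    rw [h3] at h1
    exact h1
  · have h2 : (fun p : ℝ × ℝ => UH m p.1 p.2) = fun p => (1 / m) * Real.log (G0 p.1 p.2) :=
      funext fun p => hUH p.1 p.2
    rw [h2]
    exact (continuous_const.mul (C0.log fun p => q0 _ _)).continuousOn
  · exact (continuous_const.mul (C1.div C0 fun p => q0 _ _)).continuousOn
  · exact (continuous_const.mul (((C2.mul C0).sub (C1.mul C1)).div (C0.pow 2)
      fun p => pow_ne_zero 2 (q0 _ _))).continuousOn
  · intro w x _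
    have hp : 0 < G0 w x := by linarith [p0 w x]
    have h1 : |G1 w x / G0 w x| ≤ m := by
      rw [abs_div, abs_of_pos hp, div_le_iff₀ hp]
      exact b1 w x
    have h2 : |G2 w x / G0 w x| ≤ m := by
      rw [abs_div, abs_of_pos hp, div_le_iff₀ hp]
      exact b2 w x
    have hmi : 0 < 1 / m := by positivity
    have hmm : 1 / m * m = 1 := by field_simp
    constructor
    · show |(1 / m) * (G1 w x / G0 w x)| ≤ 1
      rw [abs_mul, abs_of_pos hmi]
      calc 1 / m * |G1 w x / G0 w x| ≤ 1 / m * m := mul_le_mul_of_nonneg_left h1 hmi.le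
        _ = 1 := hmm
    · have h3 : (1 / m) * ((G2 w x * G0 w x - G1 w x * G1 w x) / G0 w x ^ 2) =
          (1 / m) * (G2 w x / G0 w x) - (1 / m) * (G1 w x / G0 w x) ^ 2 := by
        have := q0 w x
        field_simp
      show |(1 / m) * ((G2 w x * G0 w x - G1 w x * G1 w x) / G0 w x ^ 2)| ≤ 3
      rw [h3]
      have h4 : |(1 / m) * (G2 w x / G0 w x)| ≤ 1 := by
        rw [abs_mul, abs_of_pos hmi]
        calc 1 / m * |G2 w x / G0 w x| ≤ 1 / m * m := mul_le_mul_of_nonneg_left h2 hmi.le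
          _ = 1 := hmm
      have h5 : |(1 / m) * (G1 w x / G0 w x) ^ 2| ≤ 1 := by
        rw [abs_mul, abs_of_pos hmi, abs_pow]
        calc 1 / m * |G1 w x / G0 w x| ^ 2 ≤ 1 / m * m ^ 2 :=
              mul_le_mul_of_nonneg_left (pow_le_pow_left₀ (abs_nonneg _) h1 2) hmi.le
          _ = m := by field_simp
          _ ≤ 1 := hm1
      refine (abs_sub _ _).trans ?_
      linarith
  · intro x
    have z0 : G0 0 x = g0 m x := by
      rw [e0]
      have : (fun y : ℝ => g0 m (x + √0 * y)) = fun _ => g0 m x := by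
        funext y; rw [Real.sqrt_zero, zero_mul, add_zero]
      rw [this, E1_const]
    have z1 : G1 0 x = g1 m x := by
      rw [e1]
      have : (fun y : ℝ => g1 m (x + √0 * y)) = fun _ => g1 m x := by
        funext y; rw [Real.sqrt_zero, zero_mul, add_zero]
      rw [this, E1_const]
    have z2 : G2 0 x = g2 m x := by
      rw [e2]
      have : (fun y : ℝ => g2 m (x + √0 * y)) = fun _ => g2 m x := by
        funext y; rw [Real.sqrt_zero, zero_mul, add_zero]
      rw [this, E1_const]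
    have hg := (g0_pos m x).ne'
    have hm' := hm.ne'
    refine ⟨?_, ?_, ?_⟩
    · rw [hUH, z0, g0, Real.log_rpow (Real.cosh_pos x)]
      field_simp
    · show (1 / m) * (G1 0 x / G0 0 x) = Real.tanh x
      rw [z0, z1]
      have h1 : g1 m x = m * Real.tanh x * g0 m x := by rw [g1, g0]
      rw [h1]
      field_simp
    · show (1 / m) * ((G2 0 x * G0 0 x - G1 0 x * G1 0 x) / G0 0 x ^ 2) = sech x ^ 2
      rw [z0, z1, z2]
      have h1 : g1 m x = m * Real.tanh x * g0 m x := by rw [g1, g0]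
      have h2 : g2 m x = (m ^ 2 * Real.tanh x ^ 2 + m * sech x ^ 2) * g0 m x := by rw [g2, g0]
      rw [h1, h2]
      field_simp
      ring

end Pool.TH883.AT
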