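import Pool.Agent.TH198.AT.Conv
import Pool.Agent.TH521.AT.VD

set_option autoImplicit false

open MeasureTheory ProbabilityTheory Set Filter Topology

namespace Pool.TH883.AT

open Pool.TH198.AT

theorem E1_const' (c : ℝ) : E1 (fun _ => c) = c := by
  unfold E1
  rw [integral_const]
  simp

theorem V_zero (k : ℕ) (s h : ℝ) : V k s h 0 = E1 (fun z => sech (h + √s * z) ^ (k + 1)) := by
  unfold V
  have h1 : ∀ z : ℝ, E1 (fun y => sech (h + √s * z + √0 * y) ^ k) = sech (h + √s * z) ^ k := by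
    intro z
    have : (fun y : ℝ => sech (h + √s * z + √0 * y) ^ k) = fun _ => sech (h + √s * z) ^ k := by
      funext y
      rw [Real.sqrt_zero, zero_mul, add_zero]
    rw [this, E1_const']
  have h2 : (fun z : ℝ => sech (h + √s * z) * E1 (fun y => sech (h + √s * z + √0 * y) ^ k)) =
      fun z => sech (h + √s * z) ^ (k + 1) := by
    funext z
    rw [h1, pow_succ]
    ring
  rw [h2, neg_zero, zero_div, Real.exp_zero, one_mul]

theorem t_OVER (hH : St_HEAT) : St_OVER := by
  intro β h q hβ hq hfix hat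
  obtain ⟨s, hs⟩ : ∃ s : ℝ, s = 2 * β ^ 2 * q := ⟨_, rfl⟩
  have hs0 : 0 ≤ s := by rw [hs]; positivity
  obtain ⟨d1, -, c1, c3⟩ := Pool.TH521.AT.t_VD hH s h hs0
  rw [← hs] at hfix hat ⊢
  have hb : 0 < 2 * β ^ 2 := by positivity
  -- the values at zero
  have hV1 : V 1 s h 0 = 1 - q := by
    rw [V_zero, hfix]
    have hint : Integrable (fun z => sech (h + √s * z) ^ 2) (gaussianReal 0 1) := by
      refine Integrable.of_bound (C := 1) (Continuous.aestronglyMeasurable ?_)
        (Eventually.of_forall fun z => ?_)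
      · exact (Pool.TH521.AT.sech_cont.comp (by fun_prop)).pow 2
      · rw [Real.norm_eq_abs]
        exact Pool.TH521.AT.pow_bd 2 _
    have h1 : (fun z : ℝ => Real.tanh (h + √s * z) ^ 2) = fun z => 1 - sech (h + √s * z) ^ 2 :=
      funext fun z => Pool.TH521.AT.tanh_sq _
    have h2 : E1 (fun z : ℝ => Real.tanh (h + √s * z) ^ 2) =
        1 - E1 (fun z => sech (h + √s * z) ^ (1 + 1)) := by
      rw [h1]
      unfold E1
      rw [integral_sub (integrable_const 1) hint, integral_const]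
      simp
    rw [h2]
    ring
  have hV3 : 1 / (2 * β ^ 2) < V 3 s h 0 := by
    rw [V_zero, div_lt_iff₀ hb, mul_comm]
    exact hat
  -- a neighbourhood
  have hev : ∀ᶠ v in 𝓝[Ici 0] (0 : ℝ), 1 / (2 * β ^ 2) < V 3 s h v :=
    (c3 0 (mem_Ici.2 le_rfl)).eventually (lt_mem_nhds hV3)
  rw [eventually_nhdsWithin_iff, Metric.eventually_nhds_iff] at hev
  obtain ⟨δ, hδ, hball⟩ := hev
  have hpos : ∀ v, 0 ≤ v → v < δ → 1 / (2 * β ^ 2) < V 3 s h v := by
    intro v hv0 hv1
    refine hball ?_ hv0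
    rw [Real.dist_eq, sub_zero, abs_of_nonneg hv0]
    exact hv1
  refine ⟨δ, hδ, fun v hv hvδ => ?_⟩
  obtain ⟨F, hF⟩ : ∃ F : ℝ → ℝ, F = fun v => 1 - V 1 s h v - q - v / (2 * β ^ 2) := ⟨_, rfl⟩
  have hFd : ∀ v, 0 < v → HasDerivAt F (V 3 s h v - 1 / (2 * β ^ 2)) v := by
    intro v hv
    have h1 := (((d1 v hv).const_sub 1).sub_const q).sub ((hasDerivAt_id v).div_const (2 * β ^ 2))
    rw [neg_neg] at h1
    rw [hF]
    exact h1
  have hFc : ContinuousOn F (Icc 0 v) := by
    rw [hF]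
    have h1 : ContinuousOn (V 1 s h) (Icc 0 v) := c1.mono fun x hx => hx.1
    exact ((continuousOn_const.sub h1).sub continuousOn_const).sub
      (continuousOn_id.div_const _)
  have hmono : StrictMonoOn F (Icc 0 v) := by
    refine strictMonoOn_of_deriv_pos (convex_Icc 0 v) hFc fun x hx => ?_
    rw [interior_Icc] at hx
    rw [(hFd x hx.1).deriv]
    have := hpos x hx.1.le (hx.2.trans hvδ)
    linarith
  have h0 : F 0 = 0 := by
    rw [hF]
    simp only [hV1]
    ring
  have h1 := hmono (left_mem_Icc.2 hv.le) (right_mem_Icc.2 hv.le) hv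
  rw [h0, hF] at h1
  simp only at h1
  linarith

end Pool.TH883.AT
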